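import Pool.Agent.Helper35.CB.InstDefs
import Pool.Agent.Helper35.CB.Legendre

/-!
# CB, INST: norms of the values of a form on a box
-/

set_option autoImplicit false

namespace Pool.Agent.Helper75.CB

open NumberField Polynomial Finset Pool.Agent.Helper4.CB Pool.Agent.Helper35.CB

variable (K : Type) [Field K] [NumberField K]

/-- sum of the absolute values of the basis at all embeddings -/
noncomputable def SB : ℝ := ∑ φ : K →+* ℂ, ∑ i, ‖φ ((bas1 K i : 𝓞 K) : K)‖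

theorem SB_nonneg : 0 ≤ SB K := by
  unfold SB
  positivity

variable {K}

/-- an element with coordinates in `[0, X)` has absolute values at most `X * SB` -/
theorem norm_le_of_box {X : ℕ} {x : 𝓞 K}
    (h : ∀ i, 0 ≤ (bas1 K).repr x i ∧ (bas1 K).repr x i < X) (φ : K →+* ℂ) :
    ‖φ (x : K)‖ ≤ SB K * X := by
  have h1 : φ (x : K) = ∑ i, (((bas1 K).repr x i : ℤ) : ℂ) * φ ((bas1 K i : 𝓞 K) : K) := by
    conv_lhs => rw [← (bas1 K).sum_repr x]
    change φ (algebraMap (𝓞 K) K _) = ∑ i, _ * φ (algebraMap (𝓞 K) K _)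
    rw [map_sum, map_sum]
    apply sum_congr rfl
    intro i _
    rw [zsmul_eq_mul, map_mul, map_mul]
    simp
  rw [h1]
  have hX : (0 : ℝ) ≤ X := Nat.cast_nonneg _
  calc ‖∑ i, (((bas1 K).repr x i : ℤ) : ℂ) * φ ((bas1 K i : 𝓞 K) : K)‖
      ≤ ∑ i, ‖(((bas1 K).repr x i : ℤ) : ℂ) * φ ((bas1 K i : 𝓞 K) : K)‖ := norm_sum_le _ _
    _ ≤ ∑ i, (X : ℝ) * ‖φ ((bas1 K i : 𝓞 K) : K)‖ := by
        apply sum_le_sum
        intro i _
        rw [norm_mul]
        apply mul_le_mul_of_nonneg_right _ (norm_nonneg _)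
        rw [Complex.norm_intCast]
        have h2 := (h i).1
        have h3 := (h i).2
        rw [← Int.cast_abs, abs_of_nonneg h2]
        exact_mod_cast h3.le
    _ = X * ∑ i, ‖φ ((bas1 K i : 𝓞 K) : K)‖ := by rw [mul_sum]
    _ ≤ X * SB K := by
        apply mul_le_mul_of_nonneg_left _ hX
        unfold SB
        exact single_le_sum (f := fun φ : K →+* ℂ => ∑ i, ‖φ ((bas1 K i : 𝓞 K) : K)‖)
          (fun _ _ => by positivity) (mem_univ φ)
    _ = SB K * X := mul_comm _ _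

/-- from bounds of the absolute values to bounds of the norm -/
theorem natAbs_norm_le {x : 𝓞 K} {B : ℝ} (hB : ∀ φ : K →+* ℂ, ‖φ (x : K)‖ ≤ B) :
    ((Algebra.norm ℤ x).natAbs : ℝ) ≤ B ^ Module.finrank ℚ K := by
  rw [Nat.cast_natAbs, Int.cast_abs, abs_norm_eq_prod]
  calc ∏ φ : K →+* ℂ, ‖φ (x : K)‖ ≤ ∏ φ : K →+* ℂ, B :=
        prod_le_prod (fun _ _ => norm_nonneg _) (fun φ _ => hB φ)
    _ = B ^ Module.finrank ℚ K := by
        rw [prod_const, card_univ, NumberField.Embeddings.card K ℂ]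

/-- the value of a form at an embedding -/
theorem norm_hv_le_aux (P : (𝓞 K)[X]) (u v : 𝓞 K) (φ : K →+* ℂ) (Y : ℝ)
    (hu : ‖φ (u : K)‖ ≤ Y) (hv' : ‖φ (v : K)‖ ≤ Y) :
    ‖φ (hv P u v : K)‖ ≤ (∑ i ∈ range (P.natDegree + 1), ‖φ ((P.coeff i : 𝓞 K) : K)‖) *
      Y ^ P.natDegree := by
  have hY : 0 ≤ Y := (norm_nonneg _).trans hu
  have h1 : hv P u v = ∑ i ∈ range (P.natDegree + 1), P.coeff i * v ^ (P.natDegree - i) * u ^ i := by
    unfold hv
    rw [eval_eq_sum_range, natDegree_scaleRoots]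
    apply sum_congr rfl
    intro i _
    rw [coeff_scaleRoots]
  have h2 : φ (hv P u v : K) = ∑ i ∈ range (P.natDegree + 1), φ ((P.coeff i : 𝓞 K) : K) *
      φ (v : K) ^ (P.natDegree - i) * φ (u : K) ^ i := by
    rw [h1]
    change φ (algebraMap (𝓞 K) K _) = _
    rw [map_sum, map_sum]
    apply sum_congr rfl
    intro i _
    rw [map_mul, map_mul, map_pow, map_pow, map_mul, map_mul, map_pow, map_pow]
  rw [h2, sum_mul]
  apply (norm_sum_le _ _).trans
  apply sum_le_sum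
  intro i hi
  rw [mem_range] at hi
  rw [norm_mul, norm_mul, norm_pow, norm_pow, mul_assoc]
  apply mul_le_mul_of_nonneg_left _ (norm_nonneg _)
  calc ‖φ (v : K)‖ ^ (P.natDegree - i) * ‖φ (u : K)‖ ^ i
      ≤ Y ^ (P.natDegree - i) * Y ^ i :=
        mul_le_mul (pow_le_pow_left₀ (norm_nonneg _) hv' _)
          (pow_le_pow_left₀ (norm_nonneg _) hu _) (by positivity) (by positivity)
    _ = Y ^ P.natDegree := by
        rw [← pow_add]
        congr 1
        omega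

variable (K)

/-- **norm of the first coordinate** -/
theorem norm_fst_le : ∃ C : ℕ, ∀ X : ℕ, 1 ≤ X → ∀ g ∈ bx (eK K) 0 X,
    (Algebra.norm ℤ g.1).natAbs ≤ C * X ^ Module.finrank ℚ K := by
  refine ⟨⌈SB K ^ Module.finrank ℚ K⌉₊, fun X _ g hg => ?_⟩
  have h := (mem_box.1 hg).1
  simp only [Prod.fst_zero, sub_zero] at h
  have h1 := natAbs_norm_le (fun φ => norm_le_of_box h φ)
  rw [mul_pow] at h1
  have h2 : ((Algebra.norm ℤ g.1).natAbs : ℝ) ≤
      ((⌈SB K ^ Module.finrank ℚ K⌉₊ * X ^ Module.finrank ℚ K : ℕ) : ℝ) := by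
    push_cast
    refine h1.trans ?_
    apply mul_le_mul_of_nonneg_right (Nat.le_ceil _) (by positivity)
  exact_mod_cast h2

/-- **norm of the second coordinate** -/
theorem norm_snd_le : ∃ C : ℕ, ∀ X : ℕ, 1 ≤ X → ∀ g ∈ bx (eK K) 0 X,
    (Algebra.norm ℤ g.2).natAbs ≤ C * X ^ Module.finrank ℚ K := by
  refine ⟨⌈SB K ^ Module.finrank ℚ K⌉₊, fun X _ g hg => ?_⟩
  have h := (mem_box.1 hg).2
  simp only [Prod.snd_zero, sub_zero] at h
  have h1 := natAbs_norm_le (fun φ => norm_le_of_box h φ)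
  rw [mul_pow] at h1
  have h2 : ((Algebra.norm ℤ g.2).natAbs : ℝ) ≤
      ((⌈SB K ^ Module.finrank ℚ K⌉₊ * X ^ Module.finrank ℚ K : ℕ) : ℝ) := by
    push_cast
    refine h1.trans ?_
    apply mul_le_mul_of_nonneg_right (Nat.le_ceil _) (by positivity)
  exact_mod_cast h2

/-- **norm of the values of a form** -/
theorem norm_hv_le (P : (𝓞 K)[X]) (m : 𝓞 K) : ∃ C : ℕ, ∀ X : ℕ, 1 ≤ X →
    ∀ g ∈ bx (eK K) 0 X, (Algebra.norm ℤ (hv P g.1 (m * g.2))).natAbs ≤
      C * X ^ (P.natDegree * Module.finrank ℚ K) := by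
  set A : ℝ := ∑ φ : K →+* ℂ, ∑ i ∈ range (P.natDegree + 1), ‖φ ((P.coeff i : 𝓞 K) : K)‖ with hA
  have hA0 : 0 ≤ A := by
    rw [hA]
    positivity
  set M : ℝ := 1 + ∑ φ : K →+* ℂ, ‖φ (m : K)‖ with hM
  have hM1 : 1 ≤ M := by
    rw [hM]
    have : 0 ≤ ∑ φ : K →+* ℂ, ‖φ (m : K)‖ := by positivity
    linarith
  refine ⟨⌈(A * (M * SB K) ^ P.natDegree) ^ Module.finrank ℚ K⌉₊, fun X hX g hg => ?_⟩
  have hu := (mem_box.1 hg).1
  have hw := (mem_box.1 hg).2
  simp only [Prod.fst_zero, Prod.snd_zero, sub_zero] at hu hw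
  have hS := SB_nonneg K
  have hX0 : (0 : ℝ) ≤ X := Nat.cast_nonneg _
  have key : ∀ φ : K →+* ℂ, ‖φ (hv P g.1 (m * g.2) : K)‖ ≤
      A * (M * SB K) ^ P.natDegree * (X : ℝ) ^ P.natDegree := by
    intro φ
    have h1 : ‖φ (g.1 : K)‖ ≤ M * SB K * X := by
      refine (norm_le_of_box hu φ).trans ?_
      rw [mul_assoc]
      exact le_mul_of_one_le_left (by positivity) hM1
    have h2 : ‖φ ((m * g.2 : 𝓞 K) : K)‖ ≤ M * SB K * X := by
      have e1 : φ ((m * g.2 : 𝓞 K) : K) = φ (m : K) * φ (g.2 : K) := by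
        change φ (algebraMap (𝓞 K) K _) = φ (algebraMap (𝓞 K) K _) * φ (algebraMap (𝓞 K) K _)
        rw [map_mul, map_mul]
      rw [e1, norm_mul, mul_assoc]
      apply mul_le_mul _ (norm_le_of_box hw φ) (norm_nonneg _) (by linarith)
      rw [hM]
      have := single_le_sum (f := fun φ : K →+* ℂ => ‖φ (m : K)‖)
        (fun _ _ => norm_nonneg _) (mem_univ φ)
      linarith
    refine (norm_hv_le_aux P g.1 (m * g.2) φ _ h1 h2).trans ?_
    rw [mul_pow _ (X : ℝ), ← mul_assoc]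
    apply mul_le_mul_of_nonneg_right _ (by positivity)
    apply mul_le_mul_of_nonneg_right _ (by positivity)
    rw [hA]
    exact single_le_sum
      (f := fun φ : K →+* ℂ => ∑ i ∈ range (P.natDegree + 1), ‖φ ((P.coeff i : 𝓞 K) : K)‖)
      (fun _ _ => by positivity) (mem_univ φ)
  have h1 := natAbs_norm_le key
  rw [mul_pow _ ((X : ℝ) ^ P.natDegree), ← pow_mul] at h1
  have h2 : ((Algebra.norm ℤ (hv P g.1 (m * g.2))).natAbs : ℝ) ≤
      ((⌈(A * (M * SB K) ^ P.natDegree) ^ Module.finrank ℚ K⌉₊ *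
        X ^ (P.natDegree * Module.finrank ℚ K) : ℕ) : ℝ) := by
    push_cast
    refine h1.trans ?_
    apply mul_le_mul_of_nonneg_right (Nat.le_ceil _) (by positivity)
  exact_mod_cast h2

end Pool.Agent.Helper75.CB
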