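import Pool.Agent.Helper57.CB.CofSum

/-!
# CB, degree 3, piece ADM: the sum over all pairs (rough ideal, root), in a form with given
families of sets of prime factors
-/

set_option autoImplicit false

namespace Pool.Agent.Helper75.CB

open NumberField Polynomial Finset

/-- **sum over a family of pairs** -/
theorem sum_sigma_le {ι : Type} [DecidableEq ι] {R : ι → Type} (N : ι → ℕ) (A : Finset (Σ i : ι, R i)) (C : ℕ)
    (hR : ∀ x ∈ A, Finite (R x.1) ∧ Nat.card (R x.1) ≤ C) :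
    ∑ x ∈ A, (1 : ℝ) / N x.1 ≤ C * ∑ i ∈ A.image Sigma.fst, (1 : ℝ) / N i := by
  classical
  rw [← Finset.sum_fiberwise_of_maps_to (t := A.image Sigma.fst) (g := Sigma.fst)
    (fun x hx => Finset.mem_image_of_mem _ hx), Finset.mul_sum]
  apply Finset.sum_le_sum
  intro i hi
  obtain ⟨y, hy, hyi⟩ := Finset.mem_image.1 hi
  have h1 : ∑ x ∈ A with x.fst = i, (1 : ℝ) / N x.1 =
      ((A.filter (fun x => x.fst = i)).card : ℝ) * ((1 : ℝ) / N i) := by
    rw [← nsmul_eq_mul, ← Finset.sum_const]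
    apply Finset.sum_congr rfl
    intro x hx
    rw [(Finset.mem_filter.1 hx).2]
  rw [h1]
  apply mul_le_mul_of_nonneg_right _ (by positivity)
  obtain ⟨h2, h3⟩ := hR y hy
  subst hyi
  have h4 : (A.filter (fun x => x.fst = y.fst)).card ≤ Nat.card (R y.fst) := by
    have : Fintype (R y.fst) := Fintype.ofFinite _
    rw [Nat.card_eq_fintype_card, ← Finset.card_univ]
    have h5 : A.filter (fun x => x.fst = y.fst) ⊆
        (Finset.univ : Finset (R y.fst)).image (fun r => (⟨y.fst, r⟩ : Σ i : ι, R i)) := by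
      rintro ⟨i, r⟩ hx
      obtain ⟨-, hx⟩ := Finset.mem_filter.1 hx
      simp only at hx
      subst hx
      exact Finset.mem_image_of_mem _ (Finset.mem_univ r)
    exact (Finset.card_le_card h5).trans Finset.card_image_le
  exact_mod_cast h4.trans h3

/-- **ADM**, with hypotheses on the sets of prime factors -/
theorem adm_aux (K : Type) [Field K] [NumberField K] (k : ℕ) {ε : ℝ} (hε : 0 < ε) :
    ∃ J0 : ℕ, ∀ J : ℕ, J0 ≤ J → ∃ Z0 : ℕ, ∀ z : ℕ, Z0 ≤ z → ∀ a : ZMod (2 ^ J), IsUnit a →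
      ∀ (p : Ideal (𝓞 K) → Prop) (R : {I : Ideal (𝓞 K) // p I} → Type)
      (A : Finset (Σ I : {I : Ideal (𝓞 K) // p I}, R I)),
      (∀ x ∈ A, x.1.1 ≠ ⊥ ∧ x.1.1 ≠ ⊤ ∧ ((Ideal.absNorm x.1.1 : ℕ) : ZMod (2 ^ J)) = a ∧
        Ideal.absNorm x.1.1 ≤ z ^ k ∧ (∀ P : Ideal (𝓞 K), P.IsPrime → x.1.1 ≤ P →
          z < Ideal.absNorm P) ∧ Finite (R x.1) ∧ Nat.card (R x.1) ≤ 3 ^ k) →
      ∑ x ∈ A, (1 : ℝ) / Ideal.absNorm x.1.1 ≤ ε := by
  classical
  have h3 : (0 : ℝ) < 3 ^ k := by positivity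
  obtain ⟨J0, hJ0⟩ := Pool.Agent.Helper57.CB.cof_sum K k (ε := ε / 3 ^ k) (by positivity)
  refine ⟨J0, fun J hJ => ?_⟩
  obtain ⟨Z0, hZ0⟩ := hJ0 J hJ
  refine ⟨Z0, fun z hz a ha p R A hA => ?_⟩
  have h1 := sum_sigma_le (fun I : {I : Ideal (𝓞 K) // p I} => Ideal.absNorm I.1) A (3 ^ k)
    (fun x hx => (hA x hx).2.2.2.2.2)
  refine h1.trans ?_
  have h2 : ∑ i ∈ A.image Sigma.fst, (1 : ℝ) / Ideal.absNorm i.1 =
      ∑ b ∈ (A.image Sigma.fst).image Subtype.val, (1 : ℝ) / Ideal.absNorm b := by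
    refine (Finset.sum_image (f := fun b : Ideal (𝓞 K) => (1 : ℝ) / Ideal.absNorm b)
      (g := fun i : {I : Ideal (𝓞 K) // p I} => i.1) ?_).symm
    intro x _ y _ hxy
    exact Subtype.ext hxy
  have h4 : ∑ b ∈ (A.image Sigma.fst).image Subtype.val, (1 : ℝ) / Ideal.absNorm b ≤
      ε / 3 ^ k := by
    apply hZ0 z hz a ha
    intro b hb
    obtain ⟨I, hI, rfl⟩ := Finset.mem_image.1 hb
    obtain ⟨x, hx, rfl⟩ := Finset.mem_image.1 hI
    obtain ⟨g1, g2, g3, g4, g5, -⟩ := hA x hx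
    exact ⟨g1, g2, g3, g4, g5⟩
  rw [h2]
  push_cast
  calc (3 : ℝ) ^ k * _ ≤ 3 ^ k * (ε / 3 ^ k) := mul_le_mul_of_nonneg_left h4 h3.le
    _ = ε := by field_simp

end Pool.Agent.Helper75.CB
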